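import Mathlib
import Pool.Agent.H47.SCMain

/-!
# The `c₀`-factorable closure is properly contained in the intersection of the spatial ideals

For every `n ≥ 1` and the Schreier space `X[𝒮ₙ]` (real or complex), the norm closure of the set of
operators which factor through `c₀` is a proper subset of the intersection of all non-trivial
spatial ideals.
-/

set_option autoImplicit false

namespace Pool.Agent.Results.MP_a8437e_an.ProperInclusion

/-- For every Schreier space `X[𝒮ₙ]`, `n ≥ 1`, the inclusion of the closure of the operators
factoring through `c₀` into the intersection of the non-trivial spatial ideals is proper. -/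
theorem result (𝕜 : Type) [RCLike 𝕜] (n : ℕ) (hn : 1 ≤ n) :
    closure (SC.Gc0 𝕜 n) ⊂
      ⋂₀ {I : Set (SC.Op 𝕜 n) | SC.NontrivialSpatial 𝕜 n I} := by
  obtain ⟨m, rfl⟩ : ∃ m, n = m + 1 := ⟨n - 1, by omega⟩
  exact SC.main 𝕜 m

end Pool.Agent.Results.MP_a8437e_an.ProperInclusion
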